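import Pool.Agent.W245.EB.Zt
import Pool.Agent.R351.GD.S.SchE

/-!
# The group generated by elliptic logarithms: relations of growing degree
-/

set_option autoImplicit false

open Module
open scoped PeriodPair

namespace Pool.Agent.R351.GD

open Pool.Agent.Y113 Pool.Agent.Y916 Pool.Agent.Y916.AW Pool.Agent.Y916.Al Pool.Agent.Y916.Hy Pool.Agent.Y916.Sa
open Pool.Agent.Y916.Fld Pool.Agent.Y916.Sl Pool.Agent.Y916.Sch

/-- a right inverse of an integral matrix with independent rows -/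
theorem right_inv {n : ℕ} {ι : Type} [Fintype ι] (A : Fin n → ι → ℤ)
    (h : ∀ c : Fin n → ℤ, (∀ i, ∑ j, c j * A j i = 0) → c = 0) (v : Fin n → ℂ) :
    ∃ y : ι → ℂ, ∀ j, ∑ i, (A j i : ℂ) * y i = v j := by
  classical
  set M : Matrix (Fin n) ι ℤ := Matrix.of A with hM
  set G : Matrix (Fin n) (Fin n) ℤ := M * M.transpose with hG
  have hdet : G.det ≠ 0 := by
    intro h0
    obtain ⟨c, hc, hc0⟩ := Matrix.exists_mulVec_eq_zero_iff.2 h0
    apply hc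
    refine h c fun i => ?_
    have h1 : (Matrix.vecMul c M) ⬝ᵥ (Matrix.vecMul c M) = 0 := by
      have h2 : (Matrix.vecMul c M) ⬝ᵥ (Matrix.vecMul c M) = c ⬝ᵥ (G.mulVec c) := by
        rw [hG, ← Matrix.mulVec_mulVec, Matrix.dotProduct_mulVec c M, Matrix.mulVec_transpose]
      rw [h2, hc0, dotProduct_zero]
    have h2 := dotProduct_self_eq_zero.1 h1
    have h3 := congrFun h2 i
    simpa [Matrix.vecMul, dotProduct, hM] using h3
  set MC : Matrix (Fin n) ι ℂ := M.map (Int.castRingHom ℂ) with hMC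
  have hGC : (MC * MC.transpose).det ≠ 0 := by
    have h1 : MC * MC.transpose = G.map (Int.castRingHom ℂ) := by
      rw [hG, Matrix.map_mul, hMC, Matrix.transpose_map]
    rw [h1]
    have h2 := RingHom.map_det (Int.castRingHom ℂ) G
    rw [RingHom.mapMatrix_apply] at h2
    rw [← h2]
    simpa using hdet
  have hu : IsUnit (MC * MC.transpose).det := isUnit_iff_ne_zero.2 hGC
  refine ⟨(MC.transpose).mulVec (((MC * MC.transpose)⁻¹).mulVec v), fun j => ?_⟩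
  have h1 : MC.mulVec ((MC.transpose).mulVec (((MC * MC.transpose)⁻¹).mulVec v)) = v := by
    rw [Matrix.mulVec_mulVec, Matrix.mulVec_mulVec, Matrix.mul_nonsing_inv _ hu, Matrix.one_mulVec]
  exact congrFun h1 j

/-- a point of the group generated by the `l i` and the lattice -/
theorem grp_mem (Λ : PeriodPair) (K : IntermediateField ℚ ℂ) (hg : Λ.g₂ ∈ K)
    (hh : ∀ w ∈ Λ.lattice, ℘[Λ] (w / 2) ∈ K) {ι : Type} [Fintype ι] (l : ι → ℂ) (hl : ∀ i, l i ∉ Λ.lattice)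
    (hlK : ∀ i, ℘[Λ] (l i) ∈ K ∧ ℘'[Λ] (l i) ∈ K) (A : ι → ℤ) (p : ℂ) (hp : p ∉ Λ.lattice)
    (hpA : p - ∑ i, (A i : ℂ) * l i ∈ Λ.lattice) :
    ℘[Λ] p ∈ K ∧ ℘'[Λ] p ∈ K ∧ ∃ (m₁ m₂ : ℤ) (c : ℂ), c ∈ K ∧
      p = ∑ i, (A i : ℂ) * l i + (m₁ * Λ.ω₁ + m₂ * Λ.ω₂) ∧
      H667R3.zeta Λ p = ∑ i, (A i : ℂ) * H667R3.zeta Λ (l i) +
        (2 * m₁ * H667R3.zeta Λ (Λ.ω₁ / 2) + 2 * m₂ * H667R3.zeta Λ (Λ.ω₂ / 2)) + c := by
  set F : Subfield ℂ := K.toSubfield with hF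
  have hgF : Λ.g₂ ∈ F := hg
  have hhF : W245.EB.HalfMem Λ F := hh
  have hlF : ∀ i, l i ∈ W245.EB.GK Λ F := fun i => Or.inr (hlK i)
  have h1 : (∑ i, (A i : ℂ) * l i) ∈ W245.EB.GKg Λ F hgF hhF := by
    refine sum_mem fun i _ => ?_
    have h2 : (A i : ℂ) * l i = A i • l i := by simp
    rw [h2]
    exact zsmul_mem (show l i ∈ W245.EB.GKg Λ F hgF hhF from hlF i) _
  have h2 : p ∈ W245.EB.GKg Λ F hgF hhF := by
    have h3 : p = (∑ i, (A i : ℂ) * l i) + (p - ∑ i, (A i : ℂ) * l i) := by ring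
    rw [h3]
    exact add_mem h1 (show _ ∈ W245.EB.GKg Λ F hgF hhF from Or.inl hpA)
  have h3 : ℘[Λ] p ∈ F ∧ ℘'[Λ] p ∈ F := (show p ∈ W245.EB.GK Λ F from h2).resolve_left hp
  obtain ⟨m₁, m₂, e⟩ := PeriodPair.mem_lattice.1 hpA
  have hz := W245.EB.zt_sum hgF hhF Finset.univ A l fun i _ => hlF i
  have hzp : W245.EB.zt Λ p = H667R3.zeta Λ p := W245.EB.zt_of_notMem hp
  have hzl : ∀ i, W245.EB.zt Λ (l i) = H667R3.zeta Λ (l i) := fun i => W245.EB.zt_of_notMem (hl i)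
  have h4 : p = (∑ i, (A i : ℂ) * l i) + (p - ∑ i, (A i : ℂ) * l i) := by ring
  have h5 : W245.EB.zt Λ p = W245.EB.zt Λ (∑ i, (A i : ℂ) * l i) + H667R3.eta Λ (p - ∑ i, (A i : ℂ) * l i) := by
    conv_lhs => rw [h4]
    exact W245.EB.zt_add_lattice hpA
  have e1 := eta_half Λ Λ.ω₁_mem_lattice (om1_half Λ)
  have e2 := eta_half Λ Λ.ω₂_mem_lattice (om2_half Λ)
  refine ⟨h3.1, h3.2, m₁, m₂, W245.EB.zt Λ (∑ i, (A i : ℂ) * l i) - ∑ i, (A i : ℂ) * W245.EB.zt Λ (l i), hz, ?_, ?_⟩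
  · rw [e]
    ring
  · rw [← hzp, h5, ← e, Pool.Agent.Y153.HE.eta_comb, e1, e2, Pool.Agent.Y153.HE.zeta_eq Λ (Λ.ω₁ / 2),
      Pool.Agent.Y153.HE.zeta_eq Λ (Λ.ω₂ / 2)]
    simp only [hzl]
    ring

end Pool.Agent.R351.GD
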