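import Pool.Agent.R351.GD.E.Grp

/-!
# Relations between points of the group generated by elliptic logarithms
-/

set_option autoImplicit false

open Module
open scoped PeriodPair

namespace Pool.Agent.R351.GD

open Pool.Agent.Y113 Pool.Agent.Y916 Pool.Agent.Y916.AW Pool.Agent.Y916.Al Pool.Agent.Y916.Hy Pool.Agent.Y916.Sa
open Pool.Agent.Y916.Fld Pool.Agent.Y916.Sl Pool.Agent.Y916.Sch

/-- the numbers `p_i, ζ(p_i)` -/
noncomputable def XG (Λ : PeriodPair) {n : ℕ} (p : Fin n → ℂ) : Fin n × Fin 2 → ℂ :=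
  fun a => ![p a.1, H667R3.zeta Λ (p a.1)] a.2

/-- the numbers `℘(p_i), ℘'(p_i)` -/
noncomputable def EG (Λ : PeriodPair) {n : ℕ} (p : Fin n → ℂ) : Fin n × Fin 2 → ℂ :=
  fun a => ![℘[Λ] (p a.1), ℘'[Λ] (p a.1)] a.2

/-- relations of bounded degree are identities in `p_i, ζ(p_i)` -/
def FrG (Λ : PeriodPair) (δ : ℕ) {q n : ℕ} (w : Fin q → ℂ) (p : Fin n → ℂ) : Prop :=
  ∀ L : IntermediateField ℚ ℂ, FiniteDimensional ℚ L → finrank ℚ L ≤ δ →
  ∀ P : MvPolynomial (Fin q ⊕ ((Fin n × Fin 2) ⊕ (Fin n × Fin 2))) L, P.totalDegree ≤ δ →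
  MvPolynomial.aeval (Sum.elim w (Sum.elim (XG Λ p) (EG Λ p))) P = 0 →
  ∀ y : Fin n × Fin 2 → ℂ, MvPolynomial.aeval (Sum.elim w (Sum.elim y (EG Λ p))) P = 0

/-- a family of points of the group generated by the `l i` and the lattice which is independent modulo the lattice and
has a relation -/
def BadG (Λ : PeriodPair) (δ : ℕ) {q : ℕ} {ι : Type} [Fintype ι] (w : Fin q → ℂ) (l : ι → ℂ) : Prop :=
  ∃ (n : ℕ) (p : Fin n → ℂ) (A : Fin n → ι → ℤ), (∀ j, p j - ∑ i, (A j i : ℂ) * l i ∈ Λ.lattice) ∧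
    (∀ c : Fin n → ℤ, ∑ j, (c j : ℂ) * p j ∈ Λ.lattice → c = 0) ∧ ¬ FrG Λ δ w p

theorem grp_rel (Λ : PeriodPair) (a b : ℚ) (ha : Λ.g₂ = a) (hb : Λ.g₃ = b) {q m δ : ℕ} (hm : 1 ≤ m) {ι : Type} [Fintype ι]
    (w : Fin q → ℂ) (α : ι → ℂ)
    (hα : ∀ i, ∃ K : IntermediateField ℚ ℂ, FiniteDimensional ℚ K ∧ finrank ℚ K ≤ m ∧ α i ∈ K)
    (l t : ι → ℂ) (hl : ∀ i, l i ∉ Λ.lattice) (hlα : ∀ i, ℘[Λ] (l i) = α i) (hbad : BadG Λ δ w l) :
    RelK (δ * (6 * m) ^ (3 + 2 * Fintype.card ι)) (Fin.append w (perV Λ)) fun x : ι × Fin 3 => trip Λ (l x.1) (t x.1) x.2 := by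
  classical
  obtain ⟨n, p, A, hpA, hind, hF⟩ := hbad
  simp only [FrG, not_forall] at hF
  obtain ⟨L, hL1, hL2, P, hP1, hP2, y₀, hy₀⟩ := hF
  -- the points are not in the lattice
  have hp : ∀ j, p j ∉ Λ.lattice := by
    intro j hj
    have h1 := hind (Pi.single j 1) (by
      rw [Finset.sum_eq_single j]
      · simpa using hj
      · intro i _ hi
        simp [hi]
      · intro h
        exact absurd (Finset.mem_univ _) h)
    have h2 := congrFun h1 j
    simp at h2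
  have hsq : ∀ i, ℘'[Λ] (l i) ^ 2 = 4 * α i ^ 3 - a * α i - b := by
    intro i
    have h := Λ.derivWeierstrassP_sq (l i) (hl i)
    rw [ha, hb] at h
    rw [h, hlα i]
  have hαd : ∀ i, IsIntegral ℚ (α i) ∧ (minpoly ℚ (α i)).natDegree ≤ m := by
    intro i
    obtain ⟨K₁, h3, h4, h5⟩ := hα i
    exact deg_mem h3 h4 h5
  have hβd : ∀ i, IsIntegral ℚ (℘'[Λ] (l i)) ∧ (minpoly ℚ (℘'[Λ] (l i))).natDegree ≤ 2 * m := by
    intro i
    obtain ⟨K₁, h3, h4, h5⟩ := hα i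
    refine deg_sqrt (hsq i) (deg_mem h3 h4 ?_)
    have ha' : (a : ℂ) ∈ K₁ := by
      have := K₁.algebraMap_mem a
      simpa using this
    have hb' : (b : ℂ) ∈ K₁ := by
      have := K₁.algebraMap_mem b
      simpa using this
    have h4' : (4 : ℂ) ∈ K₁ := by exact_mod_cast natCast_mem K₁ 4
    exact sub_mem (sub_mem (mul_mem h4' (pow_mem h5 3)) (mul_mem ha' h5)) hb'
  -- the cubic
  set f : Polynomial ℚ := Polynomial.C 4 * Polynomial.X ^ 3 - Polynomial.C a * Polynomial.X - Polynomial.C b with hf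
  have hfd : f.natDegree ≤ 3 := by
    rw [hf]
    compute_degree
  have hf0 : f ≠ 0 := by
    intro h0
    have h3 : f.coeff 3 = 4 := by
      rw [hf]
      simp [Polynomial.coeff_X, Polynomial.coeff_C]
    rw [h0, Polynomial.coeff_zero] at h3
    norm_num at h3
  set R : Finset ℂ := (f.map (algebraMap ℚ ℂ)).roots.toFinset with hR
  have hRc : R.card ≤ 3 := by
    refine (Multiset.toFinset_card_le _).trans ((Polynomial.card_roots' _).trans ?_)
    rw [Polynomial.natDegree_map]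
    exact hfd
  have hfm0 : f.map (algebraMap ℚ ℂ) ≠ 0 := (Polynomial.map_ne_zero_iff (algebraMap ℚ ℂ).injective).2 hf0
  have hRd : ∀ z ∈ R, IsIntegral ℚ z ∧ (minpoly ℚ z).natDegree ≤ 3 := by
    intro z hz
    rw [hR, Multiset.mem_toFinset, Polynomial.mem_roots hfm0, Polynomial.IsRoot.def, Polynomial.eval_map_algebraMap] at hz
    have h1 : IsAlgebraic ℚ z := ⟨f, hf0, hz⟩
    exact ⟨h1.isIntegral, (Polynomial.natDegree_le_of_dvd (minpoly.dvd ℚ z hz) hf0).trans hfd⟩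
  obtain ⟨K, hK1, hK2, hK3, hK4⟩ := Pool.Agent.Y916.Om.field L hL1 (6 * m)
      (R ∪ (Finset.univ.image α ∪ Finset.univ.image fun i => ℘'[Λ] (l i))) (by
    intro v hv
    rcases Finset.mem_union.1 hv with hv | hv
    · exact ⟨(hRd v hv).1, (hRd v hv).2.trans (by omega)⟩
    rcases Finset.mem_union.1 hv with hv | hv
    · obtain ⟨i, -, rfl⟩ := Finset.mem_image.1 hv
      exact ⟨(hαd i).1, (hαd i).2.trans (by omega)⟩
    · obtain ⟨i, -, rfl⟩ := Finset.mem_image.1 hv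
      exact ⟨(hβd i).1, (hβd i).2.trans (by omega)⟩)
  have hmemK : ∀ x ∈ R ∪ (Finset.univ.image α ∪ Finset.univ.image fun i => ℘'[Λ] (l i)), x ∈ K := fun x hx =>
    hK2 (IntermediateField.subset_adjoin ℚ _ (Finset.mem_coe.2 hx))
  have hαK : ∀ i, α i ∈ K := fun i => hmemK _ (Finset.mem_union_right _ (Finset.mem_union_left _
      (Finset.mem_image_of_mem α (Finset.mem_univ i))))
  have hβK : ∀ i, ℘'[Λ] (l i) ∈ K := fun i => hmemK _ (Finset.mem_union_right _ (Finset.mem_union_right _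
      (Finset.mem_image_of_mem (fun i => ℘'[Λ] (l i)) (Finset.mem_univ i))))
  have hKd : finrank ℚ K ≤ δ * (6 * m) ^ (3 + 2 * Fintype.card ι) := by
    refine hK4.trans (Nat.mul_le_mul hL2 (Nat.pow_le_pow_right (by omega) ?_))
    refine (Finset.card_union_le _ _).trans (Nat.add_le_add hRc ?_)
    refine (Finset.card_union_le _ _).trans ?_
    have h3 := Finset.card_image_le (s := (Finset.univ : Finset ι)) (f := α)
    have h4 := Finset.card_image_le (s := (Finset.univ : Finset ι)) (f := fun i => ℘'[Λ] (l i))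
    rw [Finset.card_univ] at h3 h4
    omega
  have hgK : Λ.g₂ ∈ K := by
    rw [ha]
    have := K.algebraMap_mem a
    simpa using this
  have hh : ∀ w ∈ Λ.lattice, ℘[Λ] (w / 2) ∈ K := by
    intro v hv
    by_cases hv2 : v / 2 ∈ Λ.lattice
    · have : ℘[Λ] (v / 2) = 0 := Λ.weierstrassP_coe ⟨v / 2, hv2⟩
      rw [this]
      exact zero_mem _
    · have h := Λ.derivWeierstrassP_sq (v / 2) hv2
      rw [H667R3.wp'_half_eq_zero Λ hv, ha, hb] at h
      refine hmemK _ (Finset.mem_union_left _ ?_)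
      rw [hR, Multiset.mem_toFinset, Polynomial.mem_roots hfm0, Polynomial.IsRoot.def, Polynomial.eval_map_algebraMap, hf]
      simp only [map_sub, map_mul, map_pow, Polynomial.aeval_X, Polynomial.aeval_C, map_ofNat]
      simp only [eq_ratCast]
      linear_combination (-1 : ℂ) * h
  have hgrp := fun j => grp_mem Λ K hgK hh l hl (fun i => ⟨by rw [hlα i]; exact hαK i, hβK i⟩) (A j) (p j) (hp j) (hpA j)
  choose hp1 hp2 m₁ m₂ κ hκ hpe hze using hgrp
  -- the substitution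
  set υ := Fin (q + 5) with hυ
  let X0 : Fin q → MvPolynomial (Fin (q + 5) ⊕ ι × Fin 3) K := fun i => MvPolynomial.X (Sum.inl (Fin.castAdd 5 i))
  let Xp : Fin 5 → MvPolynomial (Fin (q + 5) ⊕ ι × Fin 3) K := fun i => MvPolynomial.X (Sum.inl (Fin.natAdd q i))
  let S1 : Fin n → MvPolynomial (Fin (q + 5) ⊕ ι × Fin 3) K := fun j =>
    ∑ i, MvPolynomial.C ((A j i : ℤ) : K) * MvPolynomial.X (Sum.inr (i, 0)) +
      (MvPolynomial.C ((m₁ j : ℤ) : K) * Xp 0 + MvPolynomial.C ((m₂ j : ℤ) : K) * Xp 1)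
  let S2 : Fin n → MvPolynomial (Fin (q + 5) ⊕ ι × Fin 3) K := fun j =>
    ∑ i, MvPolynomial.C ((A j i : ℤ) : K) * MvPolynomial.X (Sum.inr (i, 1)) +
      (MvPolynomial.C ((2 * m₁ j : ℤ) : K) * Xp 2 + MvPolynomial.C ((2 * m₂ j : ℤ) : K) * Xp 3) +
      MvPolynomial.C (⟨κ j, hκ j⟩ : K)
  let g : Fin q ⊕ ((Fin n × Fin 2) ⊕ (Fin n × Fin 2)) → MvPolynomial (Fin (q + 5) ⊕ ι × Fin 3) K :=
    Sum.elim X0 (Sum.elim (fun c => ![S1 c.1, S2 c.1] c.2)
      fun c => ![MvPolynomial.C (⟨℘[Λ] (p c.1), hp1 c.1⟩ : K), MvPolynomial.C (⟨℘'[Λ] (p c.1), hp2 c.1⟩ : K)] c.2)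
  have hCX : ∀ (c : K) (i : Fin (q + 5) ⊕ ι × Fin 3),
      (MvPolynomial.C c * MvPolynomial.X i : MvPolynomial (Fin (q + 5) ⊕ ι × Fin 3) K).totalDegree ≤ 1 := by
    intro c i
    refine (MvPolynomial.totalDegree_mul _ _).trans ?_
    rw [MvPolynomial.totalDegree_C, zero_add, MvPolynomial.totalDegree_X]
  have hsum : ∀ (F : ι → MvPolynomial (Fin (q + 5) ⊕ ι × Fin 3) K), (∀ i, (F i).totalDegree ≤ 1) →
      (∑ i, F i).totalDegree ≤ 1 := fun F hF =>
    MvPolynomial.totalDegree_finsetSum_le fun i _ => hF i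
  have hadd : ∀ F G : MvPolynomial (Fin (q + 5) ⊕ ι × Fin 3) K, F.totalDegree ≤ 1 → G.totalDegree ≤ 1 →
      (F + G).totalDegree ≤ 1 := fun F G h1 h2 => (MvPolynomial.totalDegree_add _ _).trans (max_le h1 h2)
  have hS1 : ∀ j, (S1 j).totalDegree ≤ 1 := fun j =>
    hadd _ _ (hsum _ fun i => hCX _ _) (hadd _ _ (hCX _ _) (hCX _ _))
  have hS2 : ∀ j, (S2 j).totalDegree ≤ 1 := fun j =>
    hadd _ _ (hadd _ _ (hsum _ fun i => hCX _ _) (hadd _ _ (hCX _ _) (hCX _ _))) (by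
      rw [MvPolynomial.totalDegree_C]
      exact Nat.zero_le _)
  have hg1 : ∀ c, (g c).totalDegree ≤ 1 := by
    rintro (i | ⟨j, c⟩ | ⟨j, c⟩)
    · exact (MvPolynomial.totalDegree_X _).le
    · fin_cases c
      · exact hS1 j
      · exact hS2 j
    · fin_cases c
      · show (MvPolynomial.C _ : MvPolynomial (Fin (q + 5) ⊕ ι × Fin 3) K).totalDegree ≤ 1
        rw [MvPolynomial.totalDegree_C]
        exact Nat.zero_le _
      · show (MvPolynomial.C _ : MvPolynomial (Fin (q + 5) ⊕ ι × Fin 3) K).totalDegree ≤ 1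
        rw [MvPolynomial.totalDegree_C]
        exact Nat.zero_le _
  -- the polynomial over `K`
  let iK : L →+* K := (IntermediateField.inclusion hK1).toRingHom
  set P' : MvPolynomial (Fin (q + 5) ⊕ ι × Fin 3) K := MvPolynomial.eval₂ ((MvPolynomial.C).comp iK) g P with hP'
  have hP'd : P'.totalDegree ≤ δ := by
    rw [hP', MvPolynomial.eval₂_eq]
    refine MvPolynomial.totalDegree_finsetSum_le fun s hs => ?_
    refine (MvPolynomial.totalDegree_mul _ _).trans ?_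
    rw [RingHom.comp_apply, MvPolynomial.totalDegree_C, zero_add]
    refine (MvPolynomial.totalDegree_finset_prod _ _).trans ?_
    refine le_trans (Finset.sum_le_sum fun i _ => ?_) ((MvPolynomial.le_totalDegree hs).trans hP1)
    refine (MvPolynomial.totalDegree_pow _ _).trans ?_
    exact (Nat.mul_le_mul_left _ (hg1 i)).trans (by rw [mul_one])
  set W : Fin (q + 5) → ℂ := Fin.append w (perV Λ) with hW
  have hev : ∀ y : ι × Fin 3 → ℂ, MvPolynomial.aeval (Sum.elim W y) P' =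
      MvPolynomial.aeval (Sum.elim w (Sum.elim (fun c : Fin n × Fin 2 => MvPolynomial.aeval (Sum.elim W y)
        (![S1 c.1, S2 c.1] c.2)) (EG Λ p))) P := by
    intro y
    rw [hP', MvPolynomial.aeval_def, MvPolynomial.aeval_def]
    have h1 := MvPolynomial.hom_eval₂ P ((MvPolynomial.C).comp iK)
      (MvPolynomial.aeval (Sum.elim W y) : MvPolynomial (Fin (q + 5) ⊕ ι × Fin 3) K →ₐ[K] ℂ).toRingHom g
    refine h1.trans ?_
    congr 1
    · refine RingHom.ext fun x => ?_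
      show MvPolynomial.aeval (Sum.elim W y) (MvPolynomial.C (iK x)) = _
      rw [MvPolynomial.aeval_C]
      rfl
    · funext c
      show MvPolynomial.aeval (Sum.elim W y) (g c) = _
      rcases c with i | c | c
      · show MvPolynomial.aeval (Sum.elim W y) (MvPolynomial.X (Sum.inl (Fin.castAdd 5 i))) = w i
        rw [MvPolynomial.aeval_X, Sum.elim_inl, hW, Fin.append_left]
      · rfl
      · obtain ⟨j, c⟩ := c
        fin_cases c
        · show MvPolynomial.aeval (Sum.elim W y) (MvPolynomial.C (⟨℘[Λ] (p j), hp1 j⟩ : K)) = ℘[Λ] (p j)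
          rw [MvPolynomial.aeval_C]
          rfl
        · show MvPolynomial.aeval (Sum.elim W y) (MvPolynomial.C (⟨℘'[Λ] (p j), hp2 j⟩ : K)) = ℘'[Λ] (p j)
          rw [MvPolynomial.aeval_C]
          rfl
  have hXp : ∀ (y : ι × Fin 3 → ℂ) (i : Fin 5), MvPolynomial.aeval (Sum.elim W y) (Xp i) = perV Λ i := by
    intro y i
    show MvPolynomial.aeval (Sum.elim W y) (MvPolynomial.X (Sum.inl (Fin.natAdd q i))) = _
    rw [MvPolynomial.aeval_X, Sum.elim_inl, hW, Fin.append_right]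
  have hint : ∀ (c : ℤ), algebraMap K ℂ ((c : ℤ) : K) = (c : ℂ) := fun c => by simp
  have hS1e : ∀ (y : ι × Fin 3 → ℂ) (j : Fin n), MvPolynomial.aeval (Sum.elim W y) (S1 j) =
      ∑ i, (A j i : ℂ) * y (i, 0) + (m₁ j * Λ.ω₁ + m₂ j * Λ.ω₂) := by
    intro y j
    show MvPolynomial.aeval (Sum.elim W y) (∑ i, MvPolynomial.C ((A j i : ℤ) : K) * MvPolynomial.X (Sum.inr (i, 0)) +
      (MvPolynomial.C ((m₁ j : ℤ) : K) * Xp 0 + MvPolynomial.C ((m₂ j : ℤ) : K) * Xp 1)) = _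
    simp only [map_add, map_sum, map_mul, hXp, MvPolynomial.aeval_C, hint, MvPolynomial.aeval_X, Sum.elim_inr]
    rfl
  have hS2e : ∀ (y : ι × Fin 3 → ℂ) (j : Fin n), MvPolynomial.aeval (Sum.elim W y) (S2 j) =
      ∑ i, (A j i : ℂ) * y (i, 1) + (2 * m₁ j * H667R3.zeta Λ (Λ.ω₁ / 2) + 2 * m₂ j * H667R3.zeta Λ (Λ.ω₂ / 2)) + κ j := by
    intro y j
    show MvPolynomial.aeval (Sum.elim W y) (∑ i, MvPolynomial.C ((A j i : ℤ) : K) * MvPolynomial.X (Sum.inr (i, 1)) +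
      (MvPolynomial.C ((2 * m₁ j : ℤ) : K) * Xp 2 + MvPolynomial.C ((2 * m₂ j : ℤ) : K) * Xp 3) +
      MvPolynomial.C (⟨κ j, hκ j⟩ : K)) = _
    simp only [map_add, map_sum, map_mul, hXp, MvPolynomial.aeval_C, hint, MvPolynomial.aeval_X, Sum.elim_inr]
    have h1 : algebraMap K ℂ (⟨κ j, hκ j⟩ : K) = κ j := rfl
    have h2 : perV Λ 2 = H667R3.zeta Λ (Λ.ω₁ / 2) := by
      rw [← Pool.Agent.Y153.HE.zeta_eq]
      rfl
    have h3 : perV Λ 3 = H667R3.zeta Λ (Λ.ω₂ / 2) := by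
      rw [← Pool.Agent.Y153.HE.zeta_eq]
      rfl
    rw [h1, h2, h3]
    push_cast
    ring
  have hδδ : δ ≤ δ * (6 * m) ^ (3 + 2 * Fintype.card ι) :=
    Nat.le_mul_of_pos_right _ (Nat.pow_pos (by omega))
  refine ⟨K, hK3, hKd, P', hP'd.trans hδδ, ?_, ?_⟩
  · rw [hev, ← hP2]
    congr 1
    congr 1
    funext c
    rcases c with i | c | c
    · rfl
    · obtain ⟨j, c⟩ := c
      fin_cases c
      · show MvPolynomial.aeval _ (S1 j) = p j
        rw [hS1e, hpe j]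
        rfl
      · show MvPolynomial.aeval _ (S2 j) = H667R3.zeta Λ (p j)
        rw [hS2e, hze j]
        congr 2
    · rfl
  · intro h0
    apply hy₀
    have hrows : ∀ c : Fin n → ℤ, (∀ i, ∑ j, c j * A j i = 0) → c = 0 := by
      intro c hc
      refine hind c ?_
      have h1 : ∑ j, (c j : ℂ) * p j = ∑ j, (c j : ℂ) * (p j - ∑ i, (A j i : ℂ) * l i) := by
        have h2 : ∑ j, (c j : ℂ) * ∑ i, (A j i : ℂ) * l i = 0 := by
          simp only [Finset.mul_sum]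
          rw [Finset.sum_comm]
          refine Finset.sum_eq_zero fun i _ => ?_
          have h3 : ((∑ j, c j * A j i : ℤ) : ℂ) = 0 := by rw [hc i]; simp
          push_cast at h3
          have h4 : ∑ j, (c j : ℂ) * ((A j i : ℂ) * l i) = (∑ j, (c j : ℂ) * (A j i : ℂ)) * l i := by
            rw [Finset.sum_mul]
            exact Finset.sum_congr rfl fun j _ => by ring
          rw [h4, h3, zero_mul]
        simp only [mul_sub, Finset.sum_sub_distrib, h2, sub_zero]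
      rw [h1]
      refine sum_mem fun j _ => ?_
      have h2 : (c j : ℂ) * (p j - ∑ i, (A j i : ℂ) * l i) = c j • (p j - ∑ i, (A j i : ℂ) * l i) := by simp
      rw [h2]
      exact zsmul_mem (hpA j) _
    obtain ⟨u₁, hu₁⟩ := right_inv A hrows fun j => y₀ (j, 0) - (m₁ j * Λ.ω₁ + m₂ j * Λ.ω₂)
    obtain ⟨u₂, hu₂⟩ := right_inv A hrows fun j => y₀ (j, 1) -
      (2 * m₁ j * H667R3.zeta Λ (Λ.ω₁ / 2) + 2 * m₂ j * H667R3.zeta Λ (Λ.ω₂ / 2)) - κ j
    have h1 := congrArg (MvPolynomial.aeval (R := ℂ) fun x : ι × Fin 3 => (![u₁ x.1, u₂ x.1, 0] : Fin 3 → ℂ) x.2) h0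
    rw [map_zero, Af.eval_sub, hev] at h1
    rw [← h1]
    congr 1
    congr 1
    funext c
    rcases c with i | c | c
    · rfl
    · obtain ⟨j, c⟩ := c
      fin_cases c
      · show y₀ (j, 0) = MvPolynomial.aeval _ (S1 j)
        rw [hS1e]
        show _ = ∑ i, (A j i : ℂ) * u₁ i + _
        rw [hu₁ j]
        ring
      · show y₀ (j, 1) = MvPolynomial.aeval _ (S2 j)
        rw [hS2e]
        show _ = ∑ i, (A j i : ℂ) * u₂ i + _ + _
        rw [hu₂ j]
        ring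
    · rfl

end Pool.Agent.R351.GD
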