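import Pool.Agent.R351.GD.E.Rel

/-!
# Tuples of elliptic logarithms: all families of points of the group which they generate
-/

set_option autoImplicit false

open Module
open scoped PeriodPair

namespace Pool.Agent.R351.GD

open Pool.Agent.Y113 Pool.Agent.Y916 Pool.Agent.Y916.AW Pool.Agent.Y916.Al Pool.Agent.Y916.Hy Pool.Agent.Y916.Sa
open Pool.Agent.Y916.Fld Pool.Agent.Y916.Sl Pool.Agent.Y916.Sch

/-- a bad tuple -/
def BadGT (Λ : PeriodPair) (δ : ℕ) {q k r : ℕ} (w : Fin q → ℂ) (θ : Fin r → ℕ) (α : Fin k → ℂ) : Prop :=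
  ∃ l : Fin k × Fin r → ℂ, (∀ c, l c ∉ Λ.lattice ∧ ℘[Λ] (l c) = α c.1 + θ c.2) ∧ BadG Λ δ w l

theorem tupG_exp (Λ : PeriodPair) (a b : ℚ) (ha : Λ.g₂ = a) (hb : Λ.g₃ = b) (k q m : ℕ) (hm : 1 ≤ m) {r : ℕ}
    (θ : Fin r → ℕ) (hθ : Function.Injective θ) :
    ∃ C : ℕ, ∀ (δ : ℕ) (w : Fin q → ℂ) (T : ℕ), 1 ≤ T →
      {α : Fin k → ℂ | (∀ i, Sl.AInt m T (α i)) ∧ BadGT Λ δ w θ α}.Finite ∧
      ({α : Fin k → ℂ | (∀ i, Sl.AInt m T (α i)) ∧ BadGT Λ δ w θ α}.ncard : ℝ) ≤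
        C * (T : ℝ) ^ (((k * Sl.Mm m : ℕ) : ℝ) - 1 / ((δ : ℝ) + 2) ^ C) := by
  classical
  obtain ⟨C, h⟩ := ellD_exp Λ a b ha hb m θ hθ k (q + 5)
  obtain ⟨C₂', hC₂', hfew'⟩ := few m k r hm
  obtain ⟨C₂, hC₂n⟩ := exists_nat_ge C₂'
  have hC₂ : (0 : ℝ) ≤ C₂ := Nat.cast_nonneg _
  set d₀ : ℕ := (6 * m) ^ (3 + 2 * Fintype.card (Fin k × Fin r)) with hd₀
  have hD : PB fun δ => (δ * d₀ + 2) ^ C := ((PB.id.mul (PB.const d₀)).add (PB.const 2)).pow C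
  obtain ⟨C₃, hC₃⟩ := hD
  refine ⟨C + C₂ + C₃, fun δ w T hT => ?_⟩
  have hT1 : (1 : ℝ) ≤ T := by exact_mod_cast hT
  have hfew : ∀ F : Fin k → Finset ℂ, (∀ i, (F i).card ≤ r) →
      (((Fintype.piFinset fun _ : Fin k => Sl.NF m T).filter fun α => ∃ i, α i ∈ F i).card : ℝ) ≤
        C₂ * (T : ℝ) ^ (((k * Sl.Mm m : ℕ) : ℝ) - 1) := fun F hF =>
    (hfew' T hT F hF).trans (mul_le_mul_of_nonneg_right hC₂n (by positivity))
  set δ' := δ * d₀ with hδ'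
  set W : Fin (q + 5) → ℂ := Fin.append w (perV Λ) with hW
  obtain ⟨h1, h2⟩ := h δ' W T hT
  set F : Fin k → Finset ℂ := fun _ => Finset.univ.image fun j : Fin r => -(θ j : ℂ) with hF
  have hFc : ∀ i, (F i).card ≤ r := fun i => Finset.card_image_le.trans (by simp)
  set B2 := (Fintype.piFinset fun _ : Fin k => Sl.NF m T).filter fun α => ∃ i, α i ∈ F i with hB2
  set X := {α : Fin k → ℂ | (∀ i, AInt m T (α i)) ∧ ∃ p t : Fin k × Fin r → ℂ, (∀ q, p q ∉ Λ.lattice ∧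
        ℘[Λ] (p q) = α q.1 + θ q.2 ∧ Complex.exp (t q) = α q.1 + θ q.2) ∧
        Om.BadW δ' δ' δ' W fun x : (Fin k × Fin r) × Fin 3 => trip Λ (p x.1) (t x.1) x.2} with hX
  have hsub : {α : Fin k → ℂ | (∀ i, Sl.AInt m T (α i)) ∧ BadGT Λ δ w θ α} ⊆ X ∪ (B2 : Set (Fin k → ℂ)) := by
    rintro α ⟨hα, l, hl, hbad⟩
    by_cases hsp : ∃ i, α i ∈ F i
    · right
      rw [hB2, Finset.mem_coe, Finset.mem_filter, Fintype.mem_piFinset]
      exact ⟨fun i => Sl.mem_NF.2 (hα i), hsp⟩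
    · left
      push Not at hsp
      have hne : ∀ c : Fin k × Fin r, α c.1 + θ c.2 ≠ 0 := by
        intro c h0
        refine hsp c.1 ?_
        rw [hF]
        refine Finset.mem_image.2 ⟨c.2, Finset.mem_univ _, ?_⟩
        linear_combination -h0
      have hfld : ∀ c : Fin k × Fin r, ∃ K : IntermediateField ℚ ℂ, FiniteDimensional ℚ K ∧ finrank ℚ K ≤ m ∧
          α c.1 + θ c.2 ∈ K := by
        intro c
        obtain ⟨K, ξ', h5, h6, h7, -⟩ := (hα c.1).pt hT1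
        refine ⟨K, h5, h6, ?_⟩
        rw [← h7]
        exact add_mem ξ'.2 (natCast_mem _ _)
      have hrel : RelK (δ * (6 * m) ^ (3 + 2 * Fintype.card (Fin k × Fin r))) W
          fun x : (Fin k × Fin r) × Fin 3 => trip Λ (l x.1) (Complex.log (α x.1.1 + θ x.1.2)) x.2 :=
        grp_rel Λ a b ha hb hm w (fun c : Fin k × Fin r => α c.1 + θ c.2) hfld l
          (fun c => Complex.log (α c.1 + θ c.2)) (fun c => (hl c).1) (fun c => (hl c).2) hbad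
      have hrel2 : RelK δ' W
          fun x : (Fin k × Fin r) × Fin 3 => trip Λ (l x.1) (Complex.log (α x.1.1 + θ x.1.2)) x.2 := by
        rw [hδ', hd₀]
        exact hrel
      exact ⟨hα, l, fun c => Complex.log (α c.1 + θ c.2), fun c => ⟨(hl c).1, (hl c).2, Complex.exp_log (hne c)⟩,
        relK_badW hrel2⟩
  have hfin : (X ∪ (B2 : Set (Fin k → ℂ))).Finite := h1.union (Finset.finite_toSet _)
  refine ⟨hfin.subset hsub, ?_⟩
  have h4 := hfew F hFc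
  have h5 := (Set.ncard_le_ncard hsub hfin).trans (Set.ncard_union_le _ _)
  rw [Set.ncard_coe_finset] at h5
  have hδ0 : (0 : ℝ) ≤ δ := Nat.cast_nonneg _
  have hp1 : ((δ' : ℝ) + 2) ^ C ≤ ((δ : ℝ) + 2) ^ (C + C₂ + C₃) := by
    have h6 : (δ' + 2) ^ C ≤ (δ + 2) ^ (C + C₂ + C₃) := (hC₃ δ).trans (Nat.pow_le_pow_right (by omega) (by omega))
    exact_mod_cast h6
  have hp2 : (1 : ℝ) / ((δ : ℝ) + 2) ^ (C + C₂ + C₃) ≤ 1 / ((δ' : ℝ) + 2) ^ C :=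
    one_div_le_one_div_of_le (by positivity) hp1
  have hp3 : (1 : ℝ) / ((δ : ℝ) + 2) ^ (C + C₂ + C₃) ≤ 1 := by
    rw [div_le_one (by positivity)]
    exact one_le_pow₀ (by linarith)
  set c : ℝ := 1 / ((δ : ℝ) + 2) ^ (C + C₂ + C₃) with hc
  have h6 : (T : ℝ) ^ (((k * Sl.Mm m : ℕ) : ℝ) - 1 / ((δ' : ℝ) + 2) ^ C) ≤ (T : ℝ) ^ (((k * Sl.Mm m : ℕ) : ℝ) - c) :=
    Real.rpow_le_rpow_of_exponent_le hT1 (by linarith)
  have h7 : (T : ℝ) ^ (((k * Sl.Mm m : ℕ) : ℝ) - 1) ≤ (T : ℝ) ^ (((k * Sl.Mm m : ℕ) : ℝ) - c) :=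
    Real.rpow_le_rpow_of_exponent_le hT1 (by linarith)
  calc ({α : Fin k → ℂ | (∀ i, Sl.AInt m T (α i)) ∧ BadGT Λ δ w θ α}.ncard : ℝ) ≤ (X.ncard : ℝ) + B2.card := by
        exact_mod_cast h5
    _ ≤ C * (T : ℝ) ^ (((k * Sl.Mm m : ℕ) : ℝ) - c) + C₂ * (T : ℝ) ^ (((k * Sl.Mm m : ℕ) : ℝ) - c) :=
        add_le_add (h2.trans (mul_le_mul_of_nonneg_left h6 (Nat.cast_nonneg _)))
          (h4.trans (mul_le_mul_of_nonneg_left h7 hC₂))
    _ ≤ _ := by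
        rw [← add_mul]
        refine mul_le_mul_of_nonneg_right ?_ (by positivity)
        push_cast
        have : (0 : ℝ) ≤ C₃ := Nat.cast_nonneg _
        linarith

end Pool.Agent.R351.GD
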